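import Pool.Agent.Q144.VHc

set_option autoImplicit false

/-! Partitioning families of convex sets with large `2d`-wise intersection volume. -/

open MeasureTheory Set

namespace Pool.Agent.Results.MP_05b917_co.VolumePartition

/-- **Partition theorem for the volumetric Helly theorem.**  For every dimension `d ≥ 1` and every
`δ > 0` there is `r = r(d, δ)` such that every finite (indexed) family of convex sets of `ℝ^d` in
which any `2d` members have intersection of volume at least `1` can be split into `r` classes
each of which has intersection of volume at least `1 - δ` (an empty class has intersection the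
whole space).  Here any `2d` members may be read in either of the two ways: repetitions are
allowed, or the family has at least `2d` members and the `2d` members are distinct. -/
theorem result : ∀ d : ℕ, 1 ≤ d → ∀ δ : ℝ, 0 < δ → ∃ r : ℕ,
    ∀ (ι : Type) [Finite ι] (K : ι → Set (EuclideanSpace ℝ (Fin d))),
      (∀ i, Convex ℝ (K i)) →
      ((∀ f : Fin (2 * d) → ι, 1 ≤ volume (⋂ j, K (f j))) ∨
        (2 * d ≤ Nat.card ι ∧
          ∀ f : Fin (2 * d) → ι, Function.Injective f → 1 ≤ volume (⋂ j, K (f j)))) →
      ∃ c : ι → Fin r, ∀ j : Fin r,
        ENNReal.ofReal (1 - δ) ≤ volume (⋂ i ∈ {i | c i = j}, K i) :=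
  fun d hd δ hδ => Q144.VH.main_family d hd δ hδ

end Pool.Agent.Results.MP_05b917_co.VolumePartition
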